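import Mathlib
import Pool.Agent.H.MP_a763a9_pr.I

open Finset MeasureTheory Filter Topology

namespace Pool.Agent.Results.MP_a763a9_pr.Pressure

def BallIso {V W : Type} (G : SimpleGraph V) (v : V) (r : ℕ) (H : SimpleGraph W) (o : W) : Prop :=
  ∃ φ : G.induce {u | G.edist v u ≤ r} ≃g H, φ ⟨v, by simp⟩ = o

open Classical in
noncomputable def frac {n : ℕ} (P : Fin n → Prop) : ℝ := (#{v | P v} : ℝ) / n

open Classical in
noncomputable def Z {n : ℕ} (β k h : ℝ) (G : SimpleGraph (Fin n)) : ℝ :=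
  ∑ σ ∈ Fintype.piFinset fun _ : Fin n => ({-1, 1} : Finset ℝ),
    Real.exp (β * ∑ e : Fin n × Fin n with e.1 < e.2 ∧ G.Adj e.1 e.2, σ e.1 * σ e.2
      + ∑ v, (k * G.degree v + h) * σ v)

open Classical in
theorem result (μ : (n : ℕ) → Measure (SimpleGraph (Fin n))) [∀ n, IsProbabilityMeasure (μ n)]
    (ν : Measure ℕ) [IsProbabilityMeasure ν] (hν : Integrable (fun j : ℕ => (j : ℝ)) ν)
    (h1 : ∀ j : ℕ, Tendsto (fun n => ∫ G, frac (fun v => G.degree v = j) ∂μ n) atTop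
      (𝓝 (ν.real {j})))
    (h2 : Tendsto (fun n => ∫ G, (∑ v, (G.degree v : ℝ)) / n ∂μ n) atTop (𝓝 (∫ j, (j : ℝ) ∂ν)))
    (ρ : Measure (SimpleGraph ℕ)) [IsProbabilityMeasure ρ]
    (h3 : ∀ᵐ T ∂ρ, T.IsAcyclic ∧ ∀ v, (T.neighborSet v).Finite)
    (h4 : ∀ r ≥ 1, ∀ (m : ℕ) (H : SimpleGraph (Fin m)) (o : Fin m), ∀ ε > 0,
      Tendsto (fun n => (μ n).real
        {G | ε < |frac (fun v => BallIso G v r H o) - ρ.real {T | BallIso T 0 r H o}|})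
        atTop (𝓝 0))
    (β k h : ℝ) (hβ : 0 ≤ β) :
    ∃ c : ℝ, ∀ ε > 0,
      Tendsto (fun n => (μ n).real {G | ε < |Real.log (Z β k h G) / n - c|}) atTop (𝓝 0) :=
  Pool.Agent.H.MP_a763a9_pr.main μ ν hν h1 h2 ρ h3 h4 β k h hβ

end Pool.Agent.Results.MP_a763a9_pr.Pressure
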